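import Mathlib

open Matrix Complex

namespace Pool.Agent.Results.MP_321bb7_mp.Counterexample

abbrev SU2 : Type := Matrix.specialUnitaryGroup (Fin 2) ℂ

/-- `e x = exp (2 π i x)` -/
noncomputable def e (x : ℝ) : ℂ := exp (2 * Real.pi * I * x)

/-- A continuous matrix representation of `SU(2)` with its weights (in a basis diagonalising the
torus `diag (e x, e (-x))`) and an R-charge in `(0,2)`. -/
structure Chiral where
  n : ℕ
  ρ : SU2 →* Matrix (Fin n) (Fin n) ℂ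
  cont : Continuous ρ
  wt : Fin n → ℤ
  hwt : ∀ (x : ℝ) (g : SU2), (g : Matrix (Fin 2) (Fin 2) ℂ) = diagonal ![e x, e (-x)] →
    ρ g = diagonal fun k => e (wt k * x)
  r : ℝ
  hr : 0 < r ∧ r < 2

noncomputable def theta (x : ℝ) : ℝ := Int.fract x * (1 - Int.fract x)

/-- Rains function; the only positive root of `SU(2)` is `2` -/
noncomputable def rains {m : ℕ} (R : Fin m → Chiral) (x : ℝ) : ℝ :=
  (1 / 2) * ∑ j, (1 - (R j).r) * ∑ k, theta ((R j).wt k * x) - theta (2 * x)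

noncomputable def trR {m : ℕ} (R : Fin m → Chiral) : ℝ := 3 + ∑ j, ((R j).r - 1) * (R j).n

def sym2 (g : Matrix (Fin 2) (Fin 2) ℂ) : Matrix (Fin 3) (Fin 3) ℂ :=
  !![g 0 0 ^ 2, g 0 0 * g 0 1, g 0 1 ^ 2;
     2 * g 0 0 * g 1 0, g 0 0 * g 1 1 + g 0 1 * g 1 0, 2 * g 0 1 * g 1 1;
     g 1 0 ^ 2, g 1 0 * g 1 1, g 1 1 ^ 2]

def sym3 (g : Matrix (Fin 2) (Fin 2) ℂ) : Matrix (Fin 4) (Fin 4) ℂ :=
  !![g 0 0 ^ 3, g 0 0 ^ 2 * g 0 1, g 0 0 * g 0 1 ^ 2, g 0 1 ^ 3;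
     3 * g 0 0 ^ 2 * g 1 0, g 0 0 ^ 2 * g 1 1 + 2 * g 0 0 * g 0 1 * g 1 0,
       g 0 1 ^ 2 * g 1 0 + 2 * g 0 0 * g 0 1 * g 1 1, 3 * g 0 1 ^ 2 * g 1 1;
     3 * g 0 0 * g 1 0 ^ 2, g 0 1 * g 1 0 ^ 2 + 2 * g 0 0 * g 1 0 * g 1 1,
       g 0 0 * g 1 1 ^ 2 + 2 * g 0 1 * g 1 0 * g 1 1, 3 * g 0 1 * g 1 1 ^ 2;
     g 1 0 ^ 3, g 1 0 ^ 2 * g 1 1, g 1 0 * g 1 1 ^ 2, g 1 1 ^ 3]

theorem e_add (x y : ℝ) : e (x + y) = e x * e y := by
  simp [e, mul_add, Complex.exp_add]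

theorem e_zero : e 0 = 1 := by simp [e]

theorem c2 : Continuous sym2 := by
  refine continuous_matrix fun i j => ?_
  fin_cases i <;> fin_cases j <;> simp [sym2] <;> fun_prop

theorem c3 : Continuous sym3 := by
  refine continuous_matrix fun i j => ?_
  fin_cases i <;> fin_cases j <;> simp [sym3] <;> fun_prop

noncomputable def adj : Chiral where
  n := 3
  ρ :=
    { toFun := fun g => sym2 g
      map_one' := by ext i j; fin_cases i <;> fin_cases j <;> simp [sym2]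
      map_mul' := fun g h => by
        ext i j
        fin_cases i <;> fin_cases j <;>
          simp [sym2, Matrix.mul_apply, Fin.sum_univ_succ] <;> ring }
  cont := c2.comp continuous_subtype_val
  wt := ![2, 0, -2]
  hwt := fun x g hg => by
    have h1 : e (2 * x) = e x ^ 2 := by rw [two_mul, e_add, sq]
    have h2 : e (-(2 * x)) = e (-x) ^ 2 := by rw [sq, ← e_add]; congr 1; ring
    have h3 : e x * e (-x) = 1 := by rw [← e_add, add_neg_cancel, e_zero]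
    ext i j
    fin_cases i <;> fin_cases j <;> simp [sym2, hg, h1, h2, h3, e_zero]
  r := 1 / 2
  hr := by norm_num

noncomputable def spin3 : Chiral where
  n := 4
  ρ :=
    { toFun := fun g => sym3 g
      map_one' := by ext i j; fin_cases i <;> fin_cases j <;> simp [sym3]
      map_mul' := fun g h => by
        ext i j
        fin_cases i <;> fin_cases j <;>
          simp [sym3, Matrix.mul_apply, Fin.sum_univ_succ] <;> ring }
  cont := c3.comp continuous_subtype_val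
  wt := ![3, 1, -1, -3]
  hwt := fun x g hg => by
    have h1 : e (3 * x) = e x ^ 3 := by
      rw [pow_three, ← e_add, ← e_add]; congr 1; ring
    have h2 : e (-(3 * x)) = e (-x) ^ 3 := by
      rw [pow_three, ← e_add, ← e_add]; congr 1; ring
    have h3 : e x ^ 2 * e (-x) = e x := by
      rw [sq, ← e_add, ← e_add]; congr 1; ring
    have h4 : e x * e (-x) ^ 2 = e (-x) := by
      rw [sq, ← e_add, ← e_add]; congr 1; ring
    ext i j
    fin_cases i <;> fin_cases j <;> simp [sym3, hg, h1, h2, h3, h4]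
  r := 3 / 2
  hr := by norm_num

theorem theta_vals : theta (2 * 2⁻¹) = 0 ∧ theta 0 = 0 ∧ theta (-(2 * 2⁻¹)) = 0 ∧
    theta (3 * 2⁻¹) = 1 / 4 ∧ theta 2⁻¹ = 1 / 4 ∧ theta (-2⁻¹) = 1 / 4 ∧
    theta (-(3 * 2⁻¹)) = 1 / 4 := by
  have a : ∀ (x : ℝ) (k : ℤ), x = k → theta x = 0 := by
    rintro _ k rfl; simp [theta]
  have b : ∀ (x : ℝ) (k : ℤ), x = k + 1 / 2 → theta x = 1 / 4 := by
    rintro _ k rfl
    rw [theta, Int.fract_intCast_add, Int.fract_eq_self.2 (by norm_num)]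
    norm_num
  exact ⟨a _ 1 (by norm_num), a _ 0 (by norm_num), a _ (-1) (by norm_num), b _ 1 (by norm_num),
    b _ 0 (by norm_num), b _ (-1) (by norm_num), b _ (-2) (by norm_num)⟩

noncomputable def gw : SU2 := ⟨!![0, 1; -1, 0], by
  rw [Matrix.mem_specialUnitaryGroup_iff, Matrix.mem_unitaryGroup_iff]
  refine ⟨?_, by simp [Matrix.det_fin_two]⟩
  ext i j
  fin_cases i <;> fin_cases j <;> simp [Matrix.mul_apply, Fin.sum_univ_succ]⟩

noncomputable def gi : SU2 := ⟨!![I, 0; 0, -I], by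
  rw [Matrix.mem_specialUnitaryGroup_iff, Matrix.mem_unitaryGroup_iff]
  refine ⟨?_, by simp [Matrix.det_fin_two]⟩
  ext i j
  fin_cases i <;> fin_cases j <;> simp [Matrix.mul_apply, Fin.sum_univ_succ]⟩

theorem adj_inv (v : Fin 3 → ℂ) (h : ∀ g, adj.ρ g *ᵥ v = v) : v = 0 := by
  have h1 : sym2 gw *ᵥ v = v := h gw
  have h2 : sym2 gi *ᵥ v = v := h gi
  have a := congrFun h1 1
  have b := congrFun h2 0
  have c := congrFun h2 2
  simp [sym2, gw, gi, Matrix.mulVec, dotProduct, Fin.sum_univ_succ] at a b c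
  ext i
  fin_cases i
  · simp; linear_combination (-1 / 2 : ℂ) * b
  · simp; linear_combination (-1 / 2 : ℂ) * a
  · simp; linear_combination (-1 / 2 : ℂ) * c

theorem spin3_inv (v : Fin 4 → ℂ) (h : ∀ g, spin3.ρ g *ᵥ v = v) : v = 0 := by
  have h2 : sym3 (gi * gi) *ᵥ v = v := h (gi * gi)
  have e : sym3 (gi * gi) = -1 := by
    ext i j
    fin_cases i <;> fin_cases j <;>
      simp [sym3, gi, Matrix.mul_apply, Fin.sum_univ_succ] <;> norm_num
  rw [e, Matrix.neg_mulVec, Matrix.one_mulVec] at h2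
  ext i
  have := congrFun h2 i
  simp only [Pi.neg_apply] at this
  simp only [Pi.zero_apply]
  linear_combination (-1 / 2 : ℂ) * this

theorem result : ∃ (m : ℕ) (R : Fin m → Chiral),
    (∑ j, ∑ k, ((R j).wt k) ^ 3 = 0) ∧
    (∑ j, ((R j).r - 1) * ∑ k, (((R j).wt k : ℝ)) ^ 2 + (2 ^ 2 + (-2) ^ 2) = 0) ∧
    (∀ j, ∃ σ : Equiv.Perm (Fin (R j).n), ∀ k, σ (σ k) = k ∧ (R j).wt (σ k) = -(R j).wt k) ∧
    (∀ j v, (∀ g, (R j).ρ g *ᵥ v = v) → v = 0) ∧
    (∃ x, rains R x < 0) ∧ trR R < 0 := by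
  let R : Fin 9 → Chiral := ![adj, adj, adj, adj, adj, adj, adj, spin3, spin3]
  have hR : ∀ P : Chiral → Prop, P adj → P spin3 → ∀ j, P (R j) := by
    intro P h1 h2 j
    fin_cases j <;> assumption
  have hS : ∀ f : Chiral → ℝ, ∑ j, f (R j) = 7 * f adj + 2 * f spin3 := by
    intro f
    simp [R, Fin.sum_univ_succ]
    ring
  refine ⟨9, R, ?_, ?_, ?_, ?_, ⟨2⁻¹, ?_⟩, ?_⟩
  · refine Finset.sum_eq_zero fun j _ => hR (fun C => ∑ k, (C.wt k) ^ 3 = 0) ?_ ?_ j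
    · change ∑ k : Fin 3, ((![2, 0, -2] : Fin 3 → ℤ) k) ^ 3 = 0
      decide
    · change ∑ k : Fin 4, ((![3, 1, -1, -3] : Fin 4 → ℤ) k) ^ 3 = 0
      decide
  · rw [hS (fun C => (C.r - 1) * ∑ k, ((C.wt k : ℝ)) ^ 2)]
    change 7 * ((1 / 2 - 1) * ∑ k : Fin 3, (((![2, 0, -2] : Fin 3 → ℤ) k : ℝ)) ^ 2) +
      2 * ((3 / 2 - 1) * ∑ k : Fin 4, (((![3, 1, -1, -3] : Fin 4 → ℤ) k : ℝ)) ^ 2) + _ = (0 : ℝ)
    simp [Fin.sum_univ_succ]
    norm_num
  · refine hR (fun C => ∃ σ : Equiv.Perm (Fin C.n), ∀ k, σ (σ k) = k ∧ C.wt (σ k) = -C.wt k) ?_ ?_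
    · exact ⟨Fin.revPerm, fun k => by fin_cases k <;> exact ⟨rfl, rfl⟩⟩
    · exact ⟨Fin.revPerm, fun k => by fin_cases k <;> exact ⟨rfl, rfl⟩⟩
  · exact hR (fun C => ∀ v, (∀ g, C.ρ g *ᵥ v = v) → v = 0) adj_inv spin3_inv
  · obtain ⟨a1, a2, a3, a4, a5, a6, a7⟩ := theta_vals
    rw [rains, hS (fun C => (1 - C.r) * ∑ k, theta (C.wt k * 2⁻¹)), a1]
    have b1 : ∑ k, theta (adj.wt k * 2⁻¹) = 0 := by
      change ∑ k : Fin 3, theta (((![2, 0, -2] : Fin 3 → ℤ) k : ℝ) * 2⁻¹) = 0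
      simp only [Fin.sum_univ_succ, Finset.univ_eq_empty, Finset.sum_empty, Matrix.cons_val_zero,
        Matrix.cons_val_succ]
      push_cast
      rw [zero_mul, neg_mul, a1, a2, a3]; norm_num
    have b2 : ∑ k, theta (spin3.wt k * 2⁻¹) = 1 := by
      change ∑ k : Fin 4, theta (((![3, 1, -1, -3] : Fin 4 → ℤ) k : ℝ) * 2⁻¹) = 1
      simp only [Fin.sum_univ_succ, Finset.univ_eq_empty, Finset.sum_empty, Matrix.cons_val_zero,
        Matrix.cons_val_succ]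
      push_cast
      rw [one_mul, neg_mul, neg_mul, one_mul, a4, a5, a6, a7]; norm_num
    rw [b1, b2]
    simp [adj, spin3]
    norm_num
  · rw [trR, hS (fun C => (C.r - 1) * C.n)]
    simp [adj, spin3]
    norm_num

end Pool.Agent.Results.MP_321bb7_mp.Counterexample
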